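import Pool.Agent.H39.Clu8

set_option autoImplicit false

/-!
# Symmetry groups of `2R`-clusters in `E^4`: a uniform bound

For every Delaunay set `X` of type `(r, R)` in `E^4` with mutually congruent `2R`-clusters the order
of `S(2R)` is at most `2 * 9 ^ 32 * 325 ^ 8`, a number which depends on neither `r` nor `R`.
`IsDelaunay r R X`, `Congruent X (2 * R)` and `Sym X x (2 * R)` (the group `S_x(2R)`) are defined in
`Pool.Agent.H39.Clu`.
-/

namespace Pool.Agent.Results.MP_c45da2_co.DimensionFour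

open Pool.Agent.H39.Clu

/-- The Euclidean space `E^d`. -/
abbrev Euc (d : ℕ) : Type := EuclideanSpace ℝ (Fin d)

/-- The order of the group `S_x(2R)`. -/
noncomputable def order {d : ℕ} (R : ℝ) (X : Set (Euc d)) (x : Euc d) : ℕ :=
  Nat.card (Sym X x (2 * R))

/-- The orders of the groups `S(2R)` in dimension `d`; `C(d)` is the supremum of this set. -/
def Orders (d : ℕ) : Set ℕ :=
  {n | ∃ (r R : ℝ) (X : Set (Euc d)) (x : Euc d),
    IsDelaunay r R X ∧ Congruent X (2 * R) ∧ x ∈ X ∧ n = order R X x}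

/-- In dimension `d` all the groups `S_x(2R)` are finite and have order at most `N`. -/
def Bounded (d N : ℕ) : Prop :=
  ∀ (r R : ℝ) (X : Set (Euc d)), IsDelaunay r R X → Congruent X (2 * R) →
    ∀ x ∈ X, Finite (Sym X x (2 * R)) ∧ order R X x ≤ N

theorem result :
    Bounded 4 (2 * 9 ^ 32 * 325 ^ 8) ∧
    BddAbove (Orders 4) ∧ sSup (Orders 4) ≤ 2 * 9 ^ 32 * 325 ^ 8 := by
  have main : ∀ (r R : ℝ) (X : Set (Euc 4)), IsDelaunay r R X →
      Congruent X (2 * R) → ∀ x ∈ X, Nat.card (Sym X x (2 * R)) ≤ 2 * 9 ^ 32 * 325 ^ 8 := by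
    intro r R X hX hc x hx
    have h1 := bound4 hX hc hx
    have h2 : 9 ^ 16 * (2 * nT) = 2 * 9 ^ 32 * 325 ^ 8 := by
      unfold nT
      norm_num
    rwa [h2] at h1
  have hall : ∀ n ∈ Orders 4, n ≤ 2 * 9 ^ 32 * 325 ^ 8 := by
    rintro n ⟨r, R, X, x, hX, hc, hx, rfl⟩
    exact main r R X hX hc x hx
  refine ⟨fun r R X hX hc x hx => ⟨Sym.finite hX x, main r R X hX hc x hx⟩,
    ⟨_, hall⟩, ?_⟩
  rcases (Orders 4).eq_empty_or_nonempty with h | h
  · rw [h, csSup_empty]
    exact Nat.zero_le _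
  · exact csSup_le h hall

end Pool.Agent.Results.MP_c45da2_co.DimensionFour
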