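import Pool.Agent.H39.Clu3

set_option autoImplicit false

/-!
# Symmetry groups of `2R`-clusters: a subgroup of bounded index fixes a plane pointwise

`X` is a Delaunay set of type `(r, R)` in `E^d` with mutually congruent `2R`-clusters
(`IsDelaunay`, `Congruent`), `Sym X x (2 * R)` is the group `S_x(2R)`, and `Sp X x t` is the span of
the differences `z - x`, for the points `z` of `X` at distance less than `t` from `x`.

For all `d`, `r`, `R` and `X` the group `S(2R)` has a normal subgroup `H` of index at most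
`(2 d + 1) ^ (d ^ 2)` which contains all the elements with rotation angles smaller than 60 degrees,
and which is trivial or fixes pointwise an affine subspace `x + F` with `2 ≤ dim F ≤ d - 2`; in the
second case `F` contains, for some `t ≤ 2 R`, the span of the points at distance less than `t`, and
this span has dimension at least two. Hence `|S(2R)| ≤ (2 d + 1) ^ (d ^ 2)` if these spans never
have a dimension between `2` and `d - 2` (for example if the nearest neighbours of a point span a
space of dimension at least `d - 1`), and the subgroups of `S(2R)` without nontrivial elements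
which fix a plane pointwise have order at most `(2 d + 1) ^ (d ^ 2)`.
-/

namespace Pool.Agent.Results.MP_c45da2_co.FixedPlane

open Metric Module Pool.Agent.H39.Clu

/-- The Euclidean space `E^d`. -/
abbrev Euc (d : ℕ) : Type := EuclideanSpace ℝ (Fin d)

/-- The isometries of `E^d`. -/
abbrev Iso (d : ℕ) : Type := Euc d ≃ᵢ Euc d

/-- The dimension of a linear subspace. -/
noncomputable def dm {d : ℕ} (F : Submodule ℝ (Euc d)) : ℕ := finrank ℝ F

/-- The order of a group of isometries. -/
noncomputable def ord {d : ℕ} (K : Subgroup (Iso d)) : ℕ := Nat.card K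

/-- The bound. -/
def bound (d : ℕ) : ℕ := (2 * d + 1) ^ (d ^ 2)

/-- `g` fixes the points of `x + F`. -/
def Fixes {d : ℕ} (g : Iso d) (x : Euc d) (F : Submodule ℝ (Euc d)) : Prop :=
  ∀ v ∈ F, g (x + v) = x + v

/-- The rotation angles of `g`, which fixes `x`, are smaller than 60 degrees. -/
def SmallAngles {d : ℕ} (g : Iso d) (x : Euc d) : Prop :=
  ∀ v : Euc d, v ≠ 0 → ‖g (x + v) - (x + v)‖ < ‖v‖

/-- The dimension and the codimension of `F` are at least two. -/
def TwoTwo {d : ℕ} (F : Submodule ℝ (Euc d)) : Prop := 2 ≤ dm F ∧ dm F + 2 ≤ d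

/-- `F` contains, for some `t ≤ 2R`, the span of the points at distance less than `t` from `x`,
and this span has dimension at least two. -/
def ContainsSpan {d : ℕ} (R : ℝ) (X : Set (Euc d)) (x : Euc d) (F : Submodule ℝ (Euc d)) : Prop :=
  ∃ t ≤ 2 * R, 2 ≤ dm (Sp X x t) ∧ Sp X x t ≤ F

/-- `H` is a subgroup of `G` which is normalized by `G`. -/
def NormalIn {d : ℕ} (H G : Subgroup (Iso d)) : Prop := H ≤ G ∧ ∀ g ∈ G, ∀ h ∈ H, g * h * g⁻¹ ∈ H

/-- `x + F` is invariant under the group `G`. -/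
def Invariant {d : ℕ} (G : Subgroup (Iso d)) (x : Euc d) (F : Submodule ℝ (Euc d)) : Prop :=
  ∀ g ∈ G, ∀ v ∈ F, g (x + v) - x ∈ F

/-- All elements of `G` with rotation angles smaller than 60 degrees are in `H`. -/
def ContainsSmall {d : ℕ} (G H : Subgroup (Iso d)) (x : Euc d) : Prop :=
  ∀ g ∈ G, SmallAngles g x → g ∈ H

/-- All elements of `H` fix the points of `x + F`. -/
def FixesAll {d : ℕ} (H : Subgroup (Iso d)) (x : Euc d) (F : Submodule ℝ (Euc d)) : Prop :=
  ∀ h ∈ H, Fixes h x F

/-- The structure of the group `G = S_x(2R)`. -/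
def Structure {d : ℕ} (R : ℝ) (X : Set (Euc d)) (x : Euc d) (G : Subgroup (Iso d)) : Prop :=
  ∃ (H : Subgroup (Iso d)) (F : Submodule ℝ (Euc d)),
    NormalIn H G ∧ ord G ≤ bound d * ord H ∧ ContainsSmall G H x ∧ FixesAll H x F ∧
    Invariant G x F ∧ (ord H = 1 ∨ (TwoTwo F ∧ ContainsSpan R X x F))

/-- The span of the differences to the nearest neighbours of `x`. -/
noncomputable def NN {d : ℕ} (X : Set (Euc d)) (x : Euc d) : Submodule ℝ (Euc d) :=
  Submodule.span ℝ {v | ∃ z ∈ X, z ≠ x ∧ (∀ w ∈ X, w ≠ x → dist z x ≤ dist w x) ∧ v = z - x}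

/-- No nontrivial element of `K` fixes a plane through `x` pointwise. -/
def NoPlane {d : ℕ} (K : Subgroup (Iso d)) (x : Euc d) : Prop :=
  ∀ k ∈ K, ∀ F : Submodule ℝ (Euc d), 2 ≤ dm F → Fixes k x F → k = 1

theorem result (d : ℕ) (r R : ℝ) (X : Set (Euc d)) (hX : IsDelaunay r R X)
    (hc : Congruent X (2 * R)) (x : Euc d) (hx : x ∈ X) :
    Finite (Sym X x (2 * R)) ∧
    Structure R X x (Sym X x (2 * R)) ∧
    ((∀ t ≤ 2 * R, dm (Sp X x t) ≤ 1 ∨ d ≤ dm (Sp X x t) + 1) →
      ord (Sym X x (2 * R)) ≤ bound d) ∧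
    (d ≤ dm (NN X x) + 1 → ord (Sym X x (2 * R)) ≤ bound d) ∧
    (∀ K : Subgroup (Iso d), K ≤ Sym X x (2 * R) → NoPlane K x → ord K ≤ bound d) := by
  unfold Structure ContainsSpan TwoTwo NormalIn ContainsSmall FixesAll Invariant Fixes SmallAngles
    NoPlane dm ord bound
  have hfin : Finite (Sym X x (2 * R)) := Sym.finite hX x
  have hfinSt : Finite (St X x (2 * R)) :=
    Finite.of_injective (fun g : St X x (2 * R) => (⟨g.1, g.2.1⟩ : Sym X x (2 * R)))
      (fun g h hgh => Subtype.ext (congrArg (fun s : Sym X x (2 * R) => s.1) hgh))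
  have hcount : Nat.card (Sym X x (2 * R)) ≤ (2 * d + 1) ^ (d ^ 2) * Nat.card (St X x (2 * R)) := by
    apply count
    intro g hg k hk hgk
    exact Nr_sub_St ⟨mul_mem (inv_mem hk) hg, near_of_cell hgk⟩
  -- either all the elements with small angles are trivial
  have htriv : (∀ g ∈ Nr X x (2 * R), g = 1) → St X x (2 * R) = ⊥ := by
    intro h
    rw [eq_bot_iff]
    intro g hg
    rw [Subgroup.mem_bot]
    have hF : ∀ v : EuclideanSpace ℝ (Fin d), v ∈ Fx X x (2 * R) := by
      intro v n hn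
      rw [h n hn, lin_one]
    ext1 z
    have h1 := hg.2 (z - x) (hF _)
    rw [lin_sub, Sym.fix hg.1] at h1
    exact sub_left_injective h1
  have hdich : St X x (2 * R) = ⊥ ∨ (2 ≤ finrank ℝ (Fx X x (2 * R)) ∧
      finrank ℝ (Fx X x (2 * R)) + 2 ≤ d ∧
        ∃ t ≤ 2 * R, 2 ≤ finrank ℝ (Sp X x t) ∧ Sp X x t ≤ Fx X x (2 * R)) := by
    by_cases h : ∀ g ∈ Nr X x (2 * R), g = 1
    · exact Or.inl (htriv h)
    · push Not at h
      obtain ⟨g, hg, hne⟩ := h
      obtain ⟨t, ht, h2, h3⟩ := two_le hX hc hx hg hne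
      exact Or.inr ⟨h2.trans (Submodule.finrank_mono h3), codim hg hne, t, ht, h2, h3⟩
  have hcrit : (∀ t ≤ 2 * R, finrank ℝ (Sp X x t) ≤ 1 ∨ d ≤ finrank ℝ (Sp X x t) + 1) →
      Nat.card (Sym X x (2 * R)) ≤ (2 * d + 1) ^ (d ^ 2) := by
    intro hsp
    rcases hdich with h | ⟨-, h1, t, ht, h2, h3⟩
    · rw [h] at hcount
      simpa using hcount
    · exfalso
      have h4 := Submodule.finrank_mono h3
      rcases hsp t ht with h5 | h5 <;> omega
  have hdich' : Nat.card (St X x (2 * R)) = 1 ∨ ((2 ≤ finrank ℝ (Fx X x (2 * R)) ∧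
      finrank ℝ (Fx X x (2 * R)) + 2 ≤ d) ∧
        ∃ t ≤ 2 * R, 2 ≤ finrank ℝ (Sp X x t) ∧ Sp X x t ≤ Fx X x (2 * R)) := by
    rcases hdich with h | ⟨h1, h2, h3⟩
    · left
      rw [h]
      simp
    · exact Or.inr ⟨⟨h1, h2⟩, h3⟩
  refine ⟨hfin, ⟨St X x (2 * R), Fx X x (2 * R), ⟨fun g hg => hg.1,
    fun g hg h hh => St_normal hg hh⟩, hcount, ?_, ?_, ?_, hdich'⟩, hcrit, ?_, ?_⟩
  · intro g hg hn
    apply Nr_sub_St
    refine ⟨hg, ?_⟩
    intro v hv
    have h1 := hn v hv
    rw [apply_add (Sym.fix hg)] at h1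
    rwa [add_sub_add_left_eq_sub] at h1
  · intro h hh v hv
    rw [apply_add (Sym.fix hh.1), hh.2 v hv]
  · intro g hg v hv
    rw [apply_add (Sym.fix hg), add_sub_cancel_left]
    exact Fx_inv hg hv
  · intro hnn
    apply hcrit
    intro t _
    by_cases hz : ∃ z ∈ X, z ≠ x ∧ dist z x < t
    · right
      obtain ⟨z, hzX, hzx, hzt⟩ := hz
      refine hnn.trans (Nat.add_le_add_right (Submodule.finrank_mono ?_) 1)
      refine Submodule.span_le.mpr ?_
      rintro v ⟨b, hb, hbx, hbm, rfl⟩
      exact Submodule.subset_span ⟨b, hb, lt_of_le_of_lt (hbm z hzX hzx) hzt, rfl⟩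
    · left
      push Not at hz
      have h1 : Sp X x t = ⊥ := by
        rw [eq_bot_iff]
        refine Submodule.span_le.mpr ?_
        rintro v ⟨z, hzX, hzt, rfl⟩
        have h2 : z = x := by
          by_contra h3
          have := hz z hzX h3
          linarith
        rw [h2, sub_self]
        exact Submodule.zero_mem _
      rw [h1]
      simp
  · intro K hK hfix
    have hbot : Finite (⊥ : Subgroup (EuclideanSpace ℝ (Fin d) ≃ᵢ EuclideanSpace ℝ (Fin d))) :=
      inferInstance
    have h1 := count K ⊥ (by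
      intro g hg k hk hgk
      have hN : k⁻¹ * g ∈ Nr X x (2 * R) :=
        ⟨mul_mem (inv_mem (hK hk)) (hK hg), near_of_cell hgk⟩
      rw [Subgroup.mem_bot]
      by_contra hne
      apply hne
      obtain ⟨t, ht, h2, h3⟩ := two_le hX hc hx hN hne
      refine hfix _ (mul_mem (inv_mem hk) hg) (Fx X x (2 * R))
        (h2.trans (Submodule.finrank_mono h3)) ?_
      intro v hv
      rw [apply_add (Sym.fix hN.1), hv _ hN])
    simpa using h1

end Pool.Agent.Results.MP_c45da2_co.FixedPlane
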